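import Pool.Agent.R284.RC.Stm

/-!
# Project RC, piece RC-SEQ
-/

set_option autoImplicit false
open MeasureTheory Set Filter Topology
open scoped ENNReal NNReal

namespace Pool.Agent.R670.RC

open Pool.Agent.R284.RC

namespace SeqAux

variable {n : ℕ}

theorem compl_mono {ν : Measure (E n)} {a b : E n} {r s : ℝ}
    (h : Metric.closedBall a r ⊆ Metric.closedBall b s) :
    ν (Metric.closedBall b s)ᶜ ≤ ν (Metric.closedBall a r)ᶜ :=
  measure_mono (compl_subset_compl.2 h)

/-- two balls which carry most of the mass meet -/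
theorem meet {ν : Measure (E n)} [IsProbabilityMeasure ν] {a b : E n} {r s : ℝ}
    (h1 : ν (Metric.closedBall a r)ᶜ ≤ ENNReal.ofReal (1 / 4))
    (h2 : ν (Metric.closedBall b s)ᶜ ≤ ENNReal.ofReal (1 / 4)) :
    (Metric.closedBall a r ∩ Metric.closedBall b s).Nonempty := by
  by_contra hne
  rw [not_nonempty_iff_eq_empty] at hne
  have h3 : (univ : Set (E n)) ⊆ (Metric.closedBall a r)ᶜ ∪ (Metric.closedBall b s)ᶜ := by
    rw [← compl_inter, hne, compl_empty]
  have h4 : ν univ ≤ ENNReal.ofReal (1 / 4) + ENNReal.ofReal (1 / 4) :=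
    (measure_mono h3).trans ((measure_union_le _ _).trans (add_le_add h1 h2))
  rw [measure_univ, ← ENNReal.ofReal_add (by norm_num) (by norm_num), ← ENNReal.ofReal_one,
    ENNReal.ofReal_le_ofReal_iff (by norm_num)] at h4
  norm_num at h4

end SeqAux

open SeqAux in
theorem seq_proof (hscale : S_scale) : S_seq := by
  intro n p q hp hpq M hM hT hex
  obtain ⟨ε0, hε0, R0, H0⟩ := hT (1 / 4) (by norm_num)
  have hstep : ∀ j : ℕ, ∃ ν : Measure (E n), NData p q ν (v0 p) ∧
      (Iq q ν).toReal ≤ (1 + 1 / ((j : ℝ) + 1)) * M ^ (-q) ∧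
      (1 / ((j : ℝ) + 1) ≤ ε0 → ν (Metric.closedBall 0 R0)ᶜ ≤ ENNReal.ofReal (1 / 4)) := by
    intro j
    obtain ⟨ν, hν, hI⟩ := hex (1 / ((j : ℝ) + 1)) (by positivity)
    by_cases hj : 1 / ((j : ℝ) + 1) ≤ ε0
    · have hI' : (Iq q ν).toReal ≤ (1 + ε0) * M ^ (-q) :=
        hI.trans (mul_le_mul_of_nonneg_right (by linarith) (Real.rpow_nonneg hM.le _))
      obtain ⟨a, ha⟩ := H0 ν hν hI'
      obtain ⟨h1, h2⟩ := hscale n p q hp hpq ν (v0 p) hν 1 one_pos a
      have hV : (if p = 0 then v0 p - Real.log 1 else (1 : ℝ) ^ (-p) * v0 p) = v0 p := by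
        split_ifs <;> simp
      rw [hV] at h1
      rw [Real.one_rpow, ENNReal.ofReal_one, one_mul] at h2
      refine ⟨_, h1, by rw [h2]; exact hI, fun _ => ?_⟩
      have hm : Measurable fun x : E n => (1 : ℝ) • (x - a) := by fun_prop
      rw [Measure.map_apply hm Metric.isClosed_closedBall.measurableSet.compl]
      refine (measure_mono ?_).trans ha
      intro x hx hx2
      apply hx
      show (1 : ℝ) • (x - a) ∈ Metric.closedBall (0 : E n) R0
      rw [Metric.mem_closedBall, one_smul, dist_zero_right, ← dist_eq_norm]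
      exact hx2
    · exact ⟨ν, hν, hI, fun h => absurd h hj⟩
  choose ν hν hI hR using hstep
  refine ⟨ν, hν, hI, fun δ hδ => ?_⟩
  obtain ⟨ε1, hε1, R1, H1⟩ := hT (min δ (1 / 4)) (lt_min hδ (by norm_num))
  obtain ⟨J, hJ⟩ := exists_nat_ge (1 / min ε0 ε1)
  have hmin : 0 < min ε0 ε1 := lt_min hε0 hε1
  have hbs : ∀ j, ∃ R : ℝ, ν j (Metric.closedBall 0 R)ᶜ = 0 := fun j => (hν j).2.1
  choose r hr using hbs
  refine ⟨|R0 + 2 * R1| + ∑ j ∈ Finset.range J, |r j|, fun j => ?_⟩
  have hsum : 0 ≤ ∑ j ∈ Finset.range J, |r j| := Finset.sum_nonneg fun _ _ => abs_nonneg _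
  by_cases hj : j < J
  · have h1 : |r j| ≤ ∑ j ∈ Finset.range J, |r j| :=
      Finset.single_le_sum (f := fun j => |r j|) (fun _ _ => abs_nonneg _)
        (Finset.mem_range.2 hj)
    have h2 : r j ≤ |R0 + 2 * R1| + ∑ j ∈ Finset.range J, |r j| := by
      have := le_abs_self (r j)
      have := abs_nonneg (R0 + 2 * R1)
      linarith
    have h3 := compl_mono (ν := ν j) (Metric.closedBall_subset_closedBall (x := (0 : E n)) h2)
    rw [hr j] at h3
    exact h3.trans zero_le
  · rw [not_lt] at hj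
    have hjm : 1 / ((j : ℝ) + 1) ≤ min ε0 ε1 := by
      rw [div_le_iff₀ (by positivity)]
      rw [div_le_iff₀ hmin] at hJ
      have h1 : (J : ℝ) ≤ j := by exact_mod_cast hj
      nlinarith
    have hA := hR j (hjm.trans (min_le_left _ _))
    have hI' : (Iq q (ν j)).toReal ≤ (1 + ε1) * M ^ (-q) := by
      refine (hI j).trans (mul_le_mul_of_nonneg_right ?_ (Real.rpow_nonneg hM.le _))
      have := hjm.trans (min_le_right _ _)
      linarith
    obtain ⟨a, ha⟩ := H1 (ν j) (hν j) hI'
    have hp1 : IsProbabilityMeasure (ν j) := (hν j).1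
    obtain ⟨z, hz1, hz2⟩ := meet hA (ha.trans (ENNReal.ofReal_le_ofReal (min_le_right _ _)))
    have hsub : Metric.closedBall a R1 ⊆
        Metric.closedBall (0 : E n) (|R0 + 2 * R1| + ∑ j ∈ Finset.range J, |r j|) := by
      intro x hx
      rw [Metric.mem_closedBall] at hx hz1 hz2 ⊢
      have h1 : dist x 0 ≤ dist x a + dist a z + dist z 0 := by
        have h2 := dist_triangle x a 0
        have h3 := dist_triangle a z 0
        linarith
      rw [dist_comm a z] at h1
      have h4 := le_abs_self (R0 + 2 * R1)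
      linarith
    exact (compl_mono hsub).trans (ha.trans (ENNReal.ofReal_le_ofReal (min_le_left _ _)))

end Pool.Agent.R670.RC
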