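import Pool.Agent.R284.RC.Stm

/-!
# Project RC, piece RC-TIGHT
-/

set_option autoImplicit false
open MeasureTheory Set Filter Topology
open scoped ENNReal NNReal

namespace Pool.Agent.R670.RC

open Pool.Agent.R284.RC

namespace Tight

variable {n : ℕ}

theorem meas_le (i : Fin n) (s : ℝ) : MeasurableSet {x : E n | x i ≤ s} :=
  measurableSet_le (by fun_prop) measurable_const

theorem meas_ge (i : Fin n) (s : ℝ) : MeasurableSet {x : E n | s ≤ x i} :=
  measurableSet_le measurable_const (by fun_prop)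

theorem abs_coord_le (x y : E n) (i : Fin n) : |x i - y i| ≤ dist x y := by
  rw [dist_eq_norm]
  have h := PiLp.norm_apply_le (x - y) i
  rw [Real.norm_eq_abs] at h
  exact h

/-- an integer between the quantiles -/
theorem quant {ν : Measure (E n)} [IsProbabilityMeasure ν] (hb : BS ν) (i : Fin n) {d : ℝ}
    (hd : 0 < d) (hd1 : d ≤ 1) : ∃ m : ℤ, d ≤ ν.real {x : E n | x i ≤ (m : ℝ)} ∧
      ν.real {x : E n | x i ≤ ((m : ℝ) - 1)} ≤ d := by
  obtain ⟨R, hR⟩ := hb
  have hz : ∀ x ∈ Metric.closedBall (0 : E n) R, |x i| ≤ R := by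
    intro x hx
    have h1 := abs_coord_le x 0 i
    simp only [PiLp.zero_apply, sub_zero] at h1
    exact h1.trans (Metric.mem_closedBall.1 hx)
  obtain ⟨m, hm, hml⟩ := Int.exists_least_of_bdd
    (P := fun m : ℤ => d ≤ ν.real {x : E n | x i ≤ (m : ℝ)})
    ⟨⌊-R⌋, fun z hz' => by
      by_contra hlt
      rw [not_le] at hlt
      have h0 := Int.lt_floor_iff.1 hlt
      have h1 : (z : ℝ) < -R := by linarith
      have h2 : {x : E n | x i ≤ (z : ℝ)} ⊆ (Metric.closedBall 0 R)ᶜ := by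
        intro x hx hx2
        have h3 := abs_le.1 (hz x hx2)
        have h4 : x i ≤ z := hx
        linarith [h3.1]
      have h5 : ν.real {x : E n | x i ≤ (z : ℝ)} = 0 := by
        rw [measureReal_def, measure_mono_null h2 hR, ENNReal.toReal_zero]
      rw [h5] at hz'
      linarith⟩
    ⟨⌈R⌉, by
      have h2 : {x : E n | x i ≤ (⌈R⌉ : ℝ)}ᶜ ⊆ (Metric.closedBall 0 R)ᶜ := by
        intro x hx hx2
        apply hx
        have h3 := abs_le.1 (hz x hx2)
        exact h3.2.trans (Int.le_ceil R)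
      have h5 : ν.real {x : E n | x i ≤ (⌈R⌉ : ℝ)}ᶜ = 0 := by
        rw [measureReal_def, measure_mono_null h2 hR, ENNReal.toReal_zero]
      rw [probReal_compl_eq_one_sub (meas_le i _)] at h5
      linarith⟩
  refine ⟨m, hm, ?_⟩
  by_contra hlt
  rw [not_le] at hlt
  have h1 := hml (m - 1) (by push_cast; exact hlt.le)
  omega

theorem coord {ν : Measure (E n)} [IsProbabilityMeasure ν] (hb : BS ν) (i : Fin n) {d w η : ℝ}
    (hd : 0 < d) (hd1 : d ≤ 1) (hw : 0 < w) {N : ℕ} (hN : 1 ≤ N) (hNη : 1 / (N : ℝ) ≤ η)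
    (H : ∀ A B : Set (E n), MeasurableSet A → MeasurableSet B →
      (∀ x ∈ A, ∀ y ∈ B, w ≤ dist x y) → ENNReal.ofReal d ≤ ν A → ENNReal.ofReal d ≤ ν B →
      ENNReal.ofReal (1 - η) ≤ ν A + ν B → False) :
    ∃ a : ℝ, ν.real {x : E n | |x i - a| ≤ N * w + 1}ᶜ ≤ 2 * d := by
  obtain ⟨m, hm1, hm2⟩ := quant hb i hd hd1
  have hNR : (0 : ℝ) < N := by exact_mod_cast hN
  refine ⟨m, ?_⟩
  set G : ℕ → ℝ := fun k => ν.real {x : E n | x i ≤ (m : ℝ) + k * w} with hG
  have hGm : ∀ k, d ≤ G k := fun k => hm1.trans (measureReal_mono (by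
    intro x hx
    have h1 : x i ≤ m := hx
    have h2 : 0 ≤ (k : ℝ) * w := by positivity
    show x i ≤ (m : ℝ) + k * w
    linarith))
  have hGc : ∀ s : ℝ, ν.real {x : E n | s ≤ x i} ≥ 1 - ν.real {x : E n | x i ≤ s} := by
    intro s
    have h1 : ν.real {x : E n | x i ≤ s}ᶜ ≤ ν.real {x : E n | s ≤ x i} :=
      measureReal_mono (by
        intro x hx
        have h2 : ¬ x i ≤ s := hx
        exact (not_le.1 h2).le)
    rw [probReal_compl_eq_one_sub (meas_le i s)] at h1
    exact h1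
  -- the right tail
  have hright : ν.real {x : E n | (m : ℝ) + N * w ≤ x i} ≤ d := by
    by_contra hlt
    rw [not_le] at hlt
    obtain ⟨k, hk, hkk⟩ := Finset.exists_le_of_sum_le (s := Finset.range N)
      (f := fun k => G (k + 1) - G k) (g := fun _ => 1 / (N : ℝ))
      ⟨0, Finset.mem_range.2 (by omega)⟩ (by
        rw [Finset.sum_range_sub, Finset.sum_const, Finset.card_range, nsmul_eq_mul,
          mul_one_div_cancel hNR.ne']
        have h1 : G N ≤ 1 := measureReal_le_one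
        have h2 : 0 ≤ G 0 := measureReal_nonneg
        linarith)
    have hkN : k + 1 ≤ N := Finset.mem_range.1 hk
    set A : Set (E n) := {x : E n | x i ≤ (m : ℝ) + k * w} with hA
    set B : Set (E n) := {x : E n | (m : ℝ) + ((k + 1 : ℕ) : ℝ) * w ≤ x i} with hB
    have hAd : d ≤ ν.real A := hGm k
    have hBd : d ≤ ν.real B := hlt.le.trans (measureReal_mono (by
      intro x hx
      have h1 : (m : ℝ) + N * w ≤ x i := hx
      have h2 : ((k + 1 : ℕ) : ℝ) * w ≤ N * w :=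
        mul_le_mul_of_nonneg_right (by exact_mod_cast hkN) hw.le
      show (m : ℝ) + ((k + 1 : ℕ) : ℝ) * w ≤ x i
      linarith))
    refine H A B (meas_le i _) (meas_ge i _) ?_ ?_ ?_ ?_
    · intro x hx y hy
      have h1 : x i ≤ (m : ℝ) + k * w := hx
      have h2 : (m : ℝ) + ((k + 1 : ℕ) : ℝ) * w ≤ y i := hy
      push_cast at h2
      have h3 := abs_coord_le x y i
      have h4 := (abs_le.1 (le_refl |x i - y i|)).1
      nlinarith
    · rw [← ofReal_measureReal]
      exact ENNReal.ofReal_le_ofReal hAd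
    · rw [← ofReal_measureReal]
      exact ENNReal.ofReal_le_ofReal hBd
    · rw [← ofReal_measureReal, ← ofReal_measureReal,
        ← ENNReal.ofReal_add measureReal_nonneg measureReal_nonneg]
      apply ENNReal.ofReal_le_ofReal
      have h1 := hGc ((m : ℝ) + ((k + 1 : ℕ) : ℝ) * w)
      have h2 : G (k + 1) - G k ≤ 1 / (N : ℝ) := hkk
      have h3 : G (k + 1) = ν.real {x : E n | x i ≤ (m : ℝ) + ((k + 1 : ℕ) : ℝ) * w} := rfl
      have h4 : G k = ν.real A := rfl
      linarith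
  have hsub : {x : E n | |x i - m| ≤ N * w + 1}ᶜ ⊆
      {x : E n | x i ≤ ((m : ℝ) - 1)} ∪ {x : E n | (m : ℝ) + N * w ≤ x i} := by
    intro x hx
    have h1 : ¬ |x i - m| ≤ N * w + 1 := hx
    rw [not_le] at h1
    have h0 : 0 ≤ (N : ℝ) * w := by positivity
    rcases lt_abs.1 h1 with h | h
    · right
      show (m : ℝ) + N * w ≤ x i
      linarith
    · left
      show x i ≤ (m : ℝ) - 1
      linarith
  calc ν.real {x : E n | |x i - m| ≤ N * w + 1}ᶜ
      ≤ ν.real ({x : E n | x i ≤ ((m : ℝ) - 1)} ∪ {x : E n | (m : ℝ) + N * w ≤ x i}) :=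
        measureReal_mono hsub
    _ ≤ ν.real {x : E n | x i ≤ ((m : ℝ) - 1)} + ν.real {x : E n | (m : ℝ) + N * w ≤ x i} :=
        measureReal_union_le _ _
    _ ≤ 2 * d := by linarith

end Tight

open Tight in
theorem tight_proof : S_tight := by
  intro n p q M hD δ hδ
  set d : ℝ := min 1 δ / (2 * (n + 1)) with hd
  have hn : (0 : ℝ) < 2 * ((n : ℝ) + 1) := by positivity
  have hd0 : 0 < d := div_pos (lt_min one_pos hδ) hn
  have hd1 : d ≤ 1 := by
    rw [hd, div_le_one hn]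
    have h1 : min 1 δ ≤ 1 := min_le_left _ _
    have h2 : (0 : ℝ) ≤ n := by positivity
    linarith
  have hdn : (n : ℝ) * (2 * d) ≤ δ := by
    have h1 : min 1 δ ≤ δ := min_le_right _ _
    have h2 : d * (2 * ((n : ℝ) + 1)) = min 1 δ := by
      rw [hd]; field_simp
    nlinarith
  obtain ⟨ε, hε, w, hw, η, hη, H⟩ := hD d hd0
  obtain ⟨N, hN⟩ := exists_nat_ge (1 / η + 1)
  have hη1 : 0 < 1 / η := by positivity
  have hN1 : 1 ≤ N := by
    have : (1 : ℝ) ≤ N := by linarith
    exact_mod_cast this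
  have hNη : 1 / (N : ℝ) ≤ η := by
    have h1 : (0 : ℝ) < N := by linarith
    rw [div_le_iff₀ h1]
    have h2 : 1 / η ≤ N := by linarith
    rw [div_le_iff₀ hη] at h2
    linarith
  refine ⟨ε, hε, n * (N * w + 1), fun ν hν hI => ?_⟩
  have hp : IsProbabilityMeasure ν := hν.1
  have hc : ∀ i : Fin n, ∃ a : ℝ, ν.real {x : E n | |x i - a| ≤ N * w + 1}ᶜ ≤ 2 * d := fun i =>
    coord hν.2.1 i hd0 hd1 hw hN1 hNη (fun A B hA hB => H ν hν hI A B hA hB)
  choose a ha using hc
  refine ⟨WithLp.toLp 2 a, ?_⟩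
  rw [← ofReal_measureReal]
  apply ENNReal.ofReal_le_ofReal
  have hsub : (Metric.closedBall (WithLp.toLp 2 a : E n) (n * (N * w + 1)))ᶜ ⊆
      ⋃ i : Fin n, {x : E n | |x i - a i| ≤ N * w + 1}ᶜ := by
    intro x hx
    by_contra hx2
    apply hx
    have h1 : ∀ i, |x i - a i| ≤ N * w + 1 := by
      intro i
      by_contra h2
      exact hx2 (mem_iUnion.2 ⟨i, h2⟩)
    rw [Metric.mem_closedBall, dist_eq_norm, EuclideanSpace.norm_eq]
    have h3 : (0 : ℝ) ≤ N * w + 1 := by positivity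
    refine Real.sqrt_le_iff.2 ⟨by positivity, ?_⟩
    have h4 : ∀ i ∈ (Finset.univ : Finset (Fin n)), ‖(x - WithLp.toLp 2 a) i‖ ^ 2 ≤
        (N * w + 1) ^ 2 := by
      intro i _
      rw [Real.norm_eq_abs]
      exact pow_le_pow_left₀ (abs_nonneg _) (h1 i) 2
    refine (Finset.sum_le_sum h4).trans ?_
    rw [Finset.sum_const, Finset.card_univ, Fintype.card_fin, nsmul_eq_mul, mul_pow]
    apply mul_le_mul_of_nonneg_right _ (sq_nonneg _)
    have h5 : (n : ℝ) ≤ (n : ℝ) ^ 2 := by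
      have : n ≤ n ^ 2 := Nat.le_self_pow (by norm_num) n
      exact_mod_cast this
    exact h5
  calc ν.real (Metric.closedBall (WithLp.toLp 2 a : E n) (n * (N * w + 1)))ᶜ
      ≤ ν.real (⋃ i : Fin n, {x : E n | |x i - a i| ≤ N * w + 1}ᶜ) := measureReal_mono hsub
    _ ≤ ∑ i : Fin n, ν.real {x : E n | |x i - a i| ≤ N * w + 1}ᶜ :=
        measureReal_iUnion_fintype_le _
    _ ≤ ∑ _i : Fin n, 2 * d := Finset.sum_le_sum fun i _ => ha i
    _ = (n : ℝ) * (2 * d) := by
        rw [Finset.sum_const, Finset.card_univ, Fintype.card_fin, nsmul_eq_mul]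
    _ ≤ δ := hdn

end Pool.Agent.R670.RC
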